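import Pool.Agent.Q75.BkPolyMain
set_option autoImplicit false

/-! # MP_96bc49_an, Q1: Burns–Krantz rigidity at every boundary point of the symmetrized polydisc

`symMap n` is the symmetrization map `lam ↦ (σ₁ lam, …, σₙ lam)`, `symPolydisc n` is the image of
the open unit polydisc of `ℂⁿ` under it and `eucl` is the Euclidean norm of `ℂⁿ`.

The proof. Let `p = symMap n lam` be in the closure, with all `|lam i| ≤ 1`. For a unimodular `l`
which is not one of the `lam i`, the sum `h_l` of `(l + μ) / (l - μ)` over the roots `μ` is a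
function with positive real part, smooth at `p`. In the coordinates `x_i = (l + μ_i) / (l - μ_i)` of
the right half plane it is linear, and so it is `S i + T ζ + R ω` on the slices
`x = i s + r ζ + ρ ω` through `p` (`ζ = 0`, `ω = 1`). A rigidity theorem for functions of two
variables with nonnegative real part (`Q75.Bk.two_var`, a consequence of Schwarz–Pick, Julia–Wolff
and Harnack) shows that `h_l ∘ F = h_l` on these slices, hence everywhere. As `h_l` is, up to
constants, the logarithmic derivative at `l` of the monic polynomial with roots `μ_i`, and `l` is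
arbitrary outside a finite set, `F` is the identity. -/

namespace Pool.Agent.Results.MP_96bc49_an.AllBoundaryPoints

open Filter Topology Set Metric Asymptotics Q75.Bk.Sym Polynomial

/-- `F` satisfies the Burns–Krantz condition at `p` with respect to `D`:
`F z = z + o(‖z - p‖ ^ 3)` as `z → p`, `z ∈ D`. -/
def BurnsKrantzAt {n : ℕ} (D : Set (Fin n → ℂ)) (p : Fin n → ℂ) (F : (Fin n → ℂ) → Fin n → ℂ) :
    Prop :=
  (fun z : Fin n → ℂ => eucl (F z - z)) =o[𝓝[D] p] fun z : Fin n → ℂ => eucl (z - p) ^ 3

/-- The pair `(D, p)` has the Burns–Krantz rigidity property: every holomorphic `F : D → D` which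
satisfies the Burns–Krantz condition at `p` is the identity map of `D`. -/
def HasBurnsKrantzRigidity {n : ℕ} (D : Set (Fin n → ℂ)) (p : Fin n → ℂ) : Prop :=
  ∀ F : (Fin n → ℂ) → Fin n → ℂ, DifferentiableOn ℂ F D → MapsTo F D D → BurnsKrantzAt D p F →
    ∀ z ∈ D, F z = z

lemma mem_closure_of_le {n : ℕ} {lam : Fin n → ℂ} (h : ∀ i, ‖lam i‖ ≤ 1) :
    symMap n lam ∈ closure (symPolydisc n) := by
  have hc : Continuous fun t : ℝ => symMap n fun i => (t : ℂ) * lam i := by
    refine (differentiable_symMap n).continuous.comp ?_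
    fun_prop
  have ht := (hc.tendsto 1).mono_left (nhdsWithin_le_nhds (s := Iio 1))
  simp only [Complex.ofReal_one, one_mul] at ht
  refine mem_closure_of_tendsto ht ?_
  have hmem : Ioo (0 : ℝ) 1 ∈ 𝓝[<] (1 : ℝ) := Ioo_mem_nhdsLT one_pos
  filter_upwards [hmem] with t ht
  refine ⟨fun i => (t : ℂ) * lam i, fun i => ?_, rfl⟩
  rw [norm_mul, Complex.norm_real, Real.norm_of_nonneg ht.1.le]
  have h1 := h i
  have h2 := norm_nonneg (lam i)
  nlinarith [ht.1, ht.2]

lemma roots_eq {n : ℕ} {lam mu : Fin n → ℂ} (h : symMap n lam = symMap n mu) (i : Fin n) :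
    ∃ j, mu j = lam i := by
  have h1 : ∏ i, (X - C (lam i)) = ∏ i, (X - C (mu i)) := by
    rw [← pol_symMap, ← pol_symMap, h]
  have h2 := congrArg (eval (lam i)) h1
  rw [eval_prod, eval_prod, Finset.prod_eq_zero (Finset.mem_univ i) (by simp)] at h2
  obtain ⟨j, -, hj⟩ := Finset.prod_eq_zero_iff.1 h2.symm
  refine ⟨j, ?_⟩
  simp only [eval_sub, eval_X, eval_C] at hj
  exact (sub_eq_zero.1 hj).symm

/-- For every `n` and every boundary point `p` of the symmetrized polydisc `𝔾ₙ`, the pair
`(𝔾ₙ, p)` has the Burns–Krantz rigidity property. In particular this holds at every point of the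
Shilov boundary `πₙ((∂𝔻)ⁿ)` (whose points are boundary points). -/
theorem result :
    (∀ n : ℕ, ∀ p ∈ frontier (symPolydisc n), HasBurnsKrantzRigidity (symPolydisc n) p) ∧
    ∀ n : ℕ, 1 ≤ n → ∀ lam : Fin n → ℂ, (∀ i, ‖lam i‖ = 1) →
      symMap n lam ∈ frontier (symPolydisc n) ∧
        HasBurnsKrantzRigidity (symPolydisc n) (symMap n lam) := by
  refine ⟨fun n p hp F hF hm hBK z hz => rigid (frontier_subset_closure hp) hF hm hBK hz,
    fun n hn lam hlam => ⟨?_, fun F hF hm hBK z hz =>
      rigid (mem_closure_of_le fun i => (hlam i).le) hF hm hBK hz⟩⟩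
  refine ⟨mem_closure_of_le fun i => (hlam i).le, fun h => ?_⟩
  obtain ⟨mu, hmu, h1⟩ := interior_subset h
  obtain ⟨j, hj⟩ := roots_eq h1 ⟨0, hn⟩
  have h2 := hmu j
  rw [hj, hlam] at h2
  exact lt_irrefl _ h2

end Pool.Agent.Results.MP_96bc49_an.AllBoundaryPoints
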